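import Mathlib
import Pool.Agent.Y636.CL.Defs
import Pool.Agent.Y636.CL.Final

/-!
How many uniform random examples are needed to learn DNF formulas if only few bits of every
example are used? `N` parties hold one labelled example each and write on a common blackboard, in
any number of rounds, at most `b` bits per party. For formulas with `s` gates the number of examples
needed is `(n / b) ^ Θ(log s)`, up to factors polynomial in `s`, the inverse of the error and
`log n`. So with polynomially many examples a linear number of bits per example is necessary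
and, with an arbitrarily small constant factor, sufficient.
-/

namespace Pool.Agent.Results.MP_cba12a_lc.MessageBits

open Pool.Agent.W964.Wd Pool.Agent.Y636.CL

/-- 1. Lower bound. If `2 ^ (l - 1) + 1 ≤ s`, every randomized interactive protocol with `N`
examples and at most `b` bits per example outputs, for some DNF formula with at most `s` gates, a
hypothesis of error at most `1 / 2 - γ` with probability at most
`(l / n) ^ l / γ ^ 2 + 21 * N * (4 * b / n) ^ l`.

2. Upper bound. If `s / ε ≤ 2 ^ l` and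
`N ≥ (2 n / b) ^ l * (4 s / ε) * (l log (2 n + 1) + log (1 / δ))`, some randomized protocol without
interaction with `N` examples and at most `b + 1` bits per example outputs for every DNF formula
with at most `s` gates a hypothesis of error at most `ε` with probability at least `1 - δ`.

3. For every `C` there is a `δ > 0` such that for large `n`, at most `n ^ C` examples with at most
`δ n` bits each do not suffice to learn formulas with `n` gates, even with error
`1 / 2 - n ^ (-C)` and success probability `n ^ (-C)`.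

4. For every `δ > 0` and every `C` there is a `K` such that for large `n`, any number `N ≥ n ^ K` of
examples with at most `δ n` bits each, sent without interaction, suffices to learn formulas with at
most `n ^ C` gates with error `n ^ (-C)` and success probability `1 - n ^ (-C)`. -/
theorem result :
    (∀ (n N s l b : ℕ), 1 ≤ l → 2 ^ (l - 1) + 1 ≤ s → l ≤ n → l ≤ 2 * b → ∀ γ : ℝ, 0 < γ →
      ∀ (R : Type) [Fintype R] [Nonempty R] (π : R → Prot N (Ex n) (Hy n)),
        (∀ r j, (π r).load j ≤ b) →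
        ∃ f : Hy n, IsDnf s f ∧ learnProbR (fun r => (π r).run) f (1 / 2 - γ)
          ≤ (l / n) ^ l / γ ^ 2 + 21 * N * (4 * b / n) ^ l) ∧
    (∀ (n N s l b : ℕ) (ε δ : ℝ), 1 ≤ s → 0 < ε → 0 < δ → (s : ℝ) / ε ≤ 2 ^ l →
      2 * l ≤ b + 2 → 1 ≤ b → b ≤ n →
      (2 * n / b : ℝ) ^ l * (4 * s / ε) * (l * Real.log (2 * n + 1) + Real.log (1 / δ)) ≤ N →
      ∃ (R : Type) (_ : Fintype R) (_ : Nonempty R) (π : R → Prot N (Ex n) (Hy n)),
        (∀ r j, (π r).load j ≤ b + 1) ∧ (∀ r, (π r).Silent (b + 1)) ∧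
        ∀ f : Hy n, IsDnf s f → 1 - δ ≤ learnProbR (fun r => (π r).run) f ε) ∧
    (∀ C : ℝ, 0 < C → ∃ δ : ℝ, 0 < δ ∧ ∃ n₀ : ℕ, ∀ n : ℕ, n₀ ≤ n →
      ∀ (N b : ℕ), (N : ℝ) ≤ (n : ℝ) ^ C → (b : ℝ) ≤ δ * n →
        ∀ (R : Type) [Fintype R] [Nonempty R] (π : R → Prot N (Ex n) (Hy n)),
          (∀ r j, (π r).load j ≤ b) →
          ∃ f : Hy n, IsDnf n f ∧
            learnProbR (fun r => (π r).run) f (1 / 2 - (n : ℝ) ^ (-C)) ≤ (n : ℝ) ^ (-C)) ∧
    (∀ C δ : ℝ, 0 < C → 0 < δ → ∃ K : ℝ, 0 < K ∧ ∃ n₀ : ℕ, ∀ n : ℕ, n₀ ≤ n →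
      ∀ N : ℕ, (n : ℝ) ^ K ≤ N →
      ∃ (R : Type) (_ : Fintype R) (_ : Nonempty R) (b : ℕ) (π : R → Prot N (Ex n) (Hy n)),
        (b : ℝ) ≤ δ * n ∧ (∀ r j, (π r).load j ≤ b) ∧ (∀ r, (π r).Silent b) ∧
        ∀ (s : ℕ) (f : Hy n), (s : ℝ) ≤ (n : ℝ) ^ C → IsDnf s f →
          1 - (n : ℝ) ^ (-C) ≤ learnProbR (fun r => (π r).run) f ((n : ℝ) ^ (-C))) :=
  ⟨fun _ _ _ _ _ h1 h2 h3 h4 _ h5 _ _ _ π h6 => low_dnf π h6 h1 h2 h3 h4 h5,
    fun _ _ _ _ _ _ _ h1 h2 h3 h4 h5 h6 h7 h8 => up_core h1 h2 h3 h4 h5 h6 h7 h8,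
    fun C hC => low_asym C hC, fun C δ hC hδ => up_asym C δ hC hδ⟩

end Pool.Agent.Results.MP_cba12a_lc.MessageBits
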