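import Pool.Agent.Y601.LD.Dnf

set_option autoImplicit false

/-!
# Random examples of DNF formulas, threshold decision trees and threshold circuits of depth two

The definitions used in the statement are in `Pool/Agent/Y601/LD/Dnf.lean` (`Term`, `dnfValue`,
`size`, `errDnf`, `errRandom`), in `Pool/Agent/Y601/LD/Junta.lean` (`exBits`), in
`Pool/Agent/Y601/LD/Defs.lean` (`CmpTree`, `label`, `total`, `LowRank`, `LowRank.val`) and in
`Pool/Agent/Y601/LD/BitDefs.lean` (`BitCircuit`, `BitCircuit.val`).

The input consists of `m` uniformly random examples `A 0, ..., A (m - 1)` in `{0, 1} ^ n` together
with labels `y 0, ..., y (m - 1)`. The labels are either the values of a DNF formula of size at most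
`s`, or independent random bits, and the two cases are to be told apart; a learner for DNF formulas
(even a weak one) solves this easier problem with few more examples. The model: a decision tree of
any depth asks arbitrary threshold questions about the bits of the examples and the labels, with
arbitrary real weights; more generally, a question compares an arbitrary function of the examples
without the labels with an arbitrary function of the labels. At the leaf which is reached the answer
is given by a threshold circuit of depth two, with arbitrary real weights at the output gate and
small integer weights at the other gates; more generally, by the sign of a matrix of small rank (rows: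
examples, columns: labels). So the leaves may use arbitrary sums of correlational statistics
`∑ i, g (A i) * y i`, as the low degree algorithm of Linial, Mansour and Nisan does. Let
`N = n choose k`, with `k = ⌊log₂ s⌋`. If the answer is wrong with probability at most `1 / (4 N)` for
each of the formulas and for the random labels, then the total size of the tree is at least
`(N / 6) ^ (1 / 2) ≥ (n / log₂ s) ^ ((log₂ s - 1) / 2) / 3`, which is not bounded by a polynomial in
`n` and `s`. The number of the examples may be any number from `log₂ (2 N ^ 2) = O(log n log s)` on,
while `m` random examples of `n` bits are read. If only size `(N / 6) ^ (1 / 2)` with a smaller `N` is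
excluded, the errors may be as large as `1 / (4 N)`.
-/

namespace Pool.Agent.Results.MP_cba12a_lc.ThresholdTrees

open Pool.Agent.Y601.LD Pool.Agent.Y601.LD.Junta Pool.Agent.Y601.LD.Dnf

/-- Let `k ≥ 1`, `2 ^ k ≤ s`, `1 ≤ N ≤ n choose k`, and let the number `m` of the examples satisfy
`2 N (n choose k) ≤ 2 ^ m`. Let `T` be a decision tree for pairs of a list `A` of `m` examples and a
list `y` of `m` labels, whose questions have the form `a A + b y ≥ 0` with arbitrary real functions
`a`, `b`, and with the following property. For every DNF formula of size at most `s`, the value at the
leaf which is reached is positive for `A` and its labels by the formula, except for a fraction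
`1 / (4 N)` of the lists `A`; and it is not positive for `(A, y)`, except for a fraction `1 / (4 N)` of
all pairs `(A, y)`.

(1) If the value at a leaf is a function of rank at most `r` of `A` and `y`, then `N` is at most six
times the square of the sum of the numbers `r + 1` over all leaves.
(2) If the value at a leaf is the sum of `S` arbitrary functions of integer linear forms of the bits,
such that the coefficients of the bits of `A`, or those of the bits of `y`, have absolute values with
sum at most `R`, then `N` is at most six times the square of `2 R + 1` times the sum of the numbers
`S + 1` over all leaves. -/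
theorem result {n k m N s : ℕ} (hk : 1 ≤ k) (hs : 2 ^ k ≤ s) (hN : 1 ≤ N) (hN' : N ≤ n.choose k)
    (hm : 2 * N * n.choose k ≤ 2 ^ m) :
    (∀ T : CmpTree (Fin m → Fin n → Bool) (Fin m → Bool)
        (LowRank (Fin m → Fin n → Bool) (Fin m → Bool)),
      (∀ D : Finset (Term n), size D ≤ s →
        errDnf D (fun A y => (T.label A y).val A y) ≤ 1 / (4 * N)) →
      errRandom (fun A y => (T.label A y).val A y) ≤ 1 / (4 * N) →
      N ≤ 6 * (T.total fun l => l.r + 1) ^ 2) ∧
    ∀ (R : ℕ) (T : CmpTree (Fin m × Fin n → Bool) (Fin m → Bool)
        (BitCircuit (Fin m × Fin n) (Fin m) R)),
      (∀ D : Finset (Term n), size D ≤ s →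
        errDnf D (fun A y => (T.label (exBits A) y).val (exBits A) y) ≤ 1 / (4 * N)) →
      errRandom (fun A y => (T.label (exBits A) y).val (exBits A) y) ≤ 1 / (4 * N) →
      N ≤ 6 * ((2 * R + 1) * T.total fun c => c.S + 1) ^ 2 :=
  ⟨fun T h1 h2 => dnf_N hk hs hN hN' hm (fun A => A) (fun y => y) T h1 h2,
    fun R T h1 h2 => dnf_circ hk hs hN hN' hm R T h1 h2⟩

end Pool.Agent.Results.MP_cba12a_lc.ThresholdTrees
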